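import Mathlib
import Pool.Agent.Helper50.KP.GoalsF

set_option autoImplicit false

namespace Pool.Agent.Helper81.KP

open Pool.Agent.Helper50.KP

section

variable {G : Type} [Group G] [Fintype G] [DecidableEq G]

theorem cnt_cup (w : Word) (A R : List G) (k : ℕ) (hk : A.length = k) :
    cnt ((Kind.cup, k) :: w) (A ++ R) = ∑ g : G, cnt w (A ++ g :: g⁻¹ :: R) := by
  subst hk
  rw [cnt]
  simp only [loc, Kind.i]
  rw [Finset.sum_image]
  · refine Finset.sum_congr rfl fun g _ => ?_
    simp
  · intro a _ b _ hab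
    simpa using hab

theorem cnt_cap (w : Word) (A R : List G) (g h : G) (k : ℕ) (hk : A.length = k) :
    cnt ((Kind.cap, k) :: w) (A ++ g :: h :: R) = if g * h = 1 then cnt w (A ++ R) else 0 := by
  subst hk
  rw [cnt]
  have e1 : (A ++ g :: h :: R).drop A.length = g :: h :: R := by simp
  have e2 : (A ++ g :: h :: R).take A.length = A := by simp
  have e3 : (A ++ g :: h :: R).drop (A.length + 2) = R := by
    rw [← List.drop_drop, e1]; rfl
  simp only [Kind.i, e1, e2, e3]
  simp only [List.take_succ_cons, List.take_zero, loc]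
  split_ifs with hc
  · simp
  · simp

theorem cnt_X (w : Word) (A R : List G) (g h : G) (s : Bool) (k : ℕ) (hk : A.length = k) :
    cnt ((Kind.X s, k) :: w) (A ++ g :: h :: R) = cnt w (A ++ (xr s g h ++ R)) := by
  subst hk
  rw [cnt]
  have e1 : (A ++ g :: h :: R).drop A.length = g :: h :: R := by simp
  have e2 : (A ++ g :: h :: R).take A.length = A := by simp
  have e3 : (A ++ g :: h :: R).drop (A.length + 2) = R := by
    rw [← List.drop_drop, e1]; rfl
  simp only [Kind.i, e1, e2, e3]
  simp only [List.take_succ_cons, List.take_zero, loc]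
  simp

theorem split1 (L : List G) (i : ℕ) (h : i + 1 ≤ L.length) :
    ∃ (A : List G) (g : G) (R : List G), L = A ++ g :: R ∧ A.length = i := by
  refine ⟨L.take i, L[i], L.drop (i + 1), ?_, ?_⟩
  · rw [List.getElem_cons_drop]
    simp
  · simp; omega

theorem split3 (L : List G) (i : ℕ) (h : i + 3 ≤ L.length) :
    ∃ (A : List G) (g h k : G) (R : List G), L = A ++ g :: h :: k :: R ∧ A.length = i := by
  refine ⟨L.take i, L[i], L[i + 1], L[i + 2], L.drop (i + 3), ?_, ?_⟩
  · rw [List.getElem_cons_drop, List.getElem_cons_drop, List.getElem_cons_drop]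
    simp
  · simp; omega

/-- a cap behind one more entry -/
theorem cnt_cap1 (w : Word) (A R : List G) (x g h : G) (i : ℕ) (hk : A.length = i) :
    cnt ((Kind.cap, i + 1) :: w) (A ++ x :: g :: h :: R)
      = if g * h = 1 then cnt w (A ++ x :: R) else 0 := by
  have := cnt_cap w (A ++ [x]) R g h (i + 1) (by simp [hk])
  simpa using this

theorem cnt_cup1 (w : Word) (A R : List G) (x : G) (i : ℕ) (hk : A.length = i) :
    cnt ((Kind.cup, i + 1) :: w) (A ++ x :: R) = ∑ g : G, cnt w (A ++ x :: g :: g⁻¹ :: R) := by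
  have := cnt_cup w (A ++ [x]) R (i + 1) (by simp [hk])
  simpa using this

theorem cnt_X1 (w : Word) (A R : List G) (x g h : G) (s : Bool) (i : ℕ) (hk : A.length = i) :
    cnt ((Kind.X s, i + 1) :: w) (A ++ x :: g :: h :: R) = cnt w (A ++ x :: (xr s g h ++ R)) := by
  have := cnt_X w (A ++ [x]) R g h s (i + 1) (by simp [hk])
  simpa using this

theorem gMVA : MVA := by
  intro G _ _ _ l r v L k k' hlr hl hr
  obtain ⟨i, ⟨rfl, rfl⟩ | ⟨rfl, rfl⟩ | ⟨s, rfl, rfl⟩ | ⟨s, rfl, rfl⟩⟩ := hlr
  · -- zig
    simp only [str, Kind.i, Kind.o] at hl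
    have hlen : i + 1 ≤ L.length := by
      split_ifs at hl <;> omega
    obtain ⟨A, g, R, rfl, hA⟩ := split1 L i hlen
    simp only [List.cons_append, List.nil_append]
    rw [cnt_cup _ A (g :: R) i hA]
    have : ∀ x : G, cnt ((Kind.cap, i + 1) :: v) (A ++ x :: x⁻¹ :: g :: R)
        = if g = x then cnt v (A ++ x :: R) else 0 := by
      intro x
      rw [cnt_cap1 v A R x x⁻¹ g i hA]
      have : x⁻¹ * g = 1 ↔ g = x := by
        rw [inv_mul_eq_one]; exact eq_comm
      simp only [this]
    simp only [this]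
    rw [Finset.sum_ite_eq]
    simp
  · -- zag
    simp only [str, Kind.i, Kind.o] at hl
    have hlen : i + 1 ≤ L.length := by
      split_ifs at hl <;> omega
    obtain ⟨A, g, R, rfl, hA⟩ := split1 L i hlen
    simp only [List.cons_append, List.nil_append]
    rw [cnt_cup1 _ A R g i hA]
    have : ∀ x : G, cnt ((Kind.cap, i) :: v) (A ++ g :: x :: x⁻¹ :: R)
        = if g⁻¹ = x then cnt v (A ++ x⁻¹ :: R) else 0 := by
      intro x
      rw [cnt_cap v A (x⁻¹ :: R) g x i hA]
      have : g * x = 1 ↔ g⁻¹ = x := by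
        constructor
        · intro h; exact inv_eq_of_mul_eq_one_right h
        · rintro rfl; simp
      simp only [this]
    simp only [this]
    rw [Finset.sum_ite_eq]
    simp
  · -- pcap
    simp only [str, Kind.i, Kind.o] at hl
    have hlen : i + 3 ≤ L.length := by
      split_ifs at hl <;> omega
    obtain ⟨A, g, h, m, R, rfl, hA⟩ := split3 L i hlen
    simp only [List.cons_append, List.nil_append]
    rw [cnt_X _ A (m :: R) g h s i hA, cnt_X1 _ A R g h m (!s) i hA]
    cases s
    · simp only [xr, List.cons_append, List.nil_append, Bool.not_false]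
      rw [cnt_cap1 v A R h _ m i hA, cnt_cap v A (h :: R) g _ i hA]
      have : h⁻¹ * g * h * m = 1 ↔ g * (h * m * h⁻¹) = 1 := by
        constructor
        · intro e
          have : g * (h * m * h⁻¹) = h * (h⁻¹ * g * h * m) * h⁻¹ := by group
          rw [this, e]; group
        · intro e
          have : h⁻¹ * g * h * m = h⁻¹ * (g * (h * m * h⁻¹)) * h := by group
          rw [this, e]; group
      simp only [this]
    · simp only [xr, List.cons_append, List.nil_append, Bool.not_true]
      rw [cnt_cap1 v A R _ g m i hA, cnt_cap v A _ g m i hA]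
      by_cases e : g * m = 1
      · simp only [e, if_true]
        have hm : m = g⁻¹ := eq_inv_of_mul_eq_one_right e
        subst hm
        simp
      · simp only [e, if_false]
  · -- pcup
    simp only [str, Kind.i, Kind.o] at hl
    have hlen : i + 1 ≤ L.length := by
      split_ifs at hl <;> omega
    obtain ⟨A, g, R, rfl, hA⟩ := split1 L i hlen
    simp only [List.cons_append, List.nil_append]
    rw [cnt_cup1 _ A R g i hA, cnt_cup _ A (g :: R) i hA]
    have e1 : ∀ x : G, cnt ((Kind.X s, i) :: v) (A ++ g :: x :: x⁻¹ :: R)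
        = cnt v (A ++ (xr s g x ++ x⁻¹ :: R)) := fun x => cnt_X v A (x⁻¹ :: R) g x s i hA
    have e2 : ∀ y : G, cnt ((Kind.X (!s), i + 1) :: v) (A ++ y :: y⁻¹ :: g :: R)
        = cnt v (A ++ y :: (xr (!s) y⁻¹ g ++ R)) := fun y => cnt_X1 v A R y y⁻¹ g (!s) i hA
    simp only [e1, e2]
    cases s
    · refine Finset.sum_congr rfl fun x _ => ?_
      simp [xr]
    · refine Fintype.sum_equiv (MulAut.conj g).toEquiv _ _ fun x => ?_
      simp only [xr, Bool.not_true, List.cons_append, List.nil_append, MulEquiv.toEquiv_eq_coe,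
        MulEquiv.coe_toEquiv, MulAut.conj_apply]
      have : g⁻¹ * (g * x * g⁻¹)⁻¹ * g = x⁻¹ := by group
      rw [this]

end

end Pool.Agent.Helper81.KP
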